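import Pool.Agent.Lib.MP_03766d_co.Main

/-!
# MP_03766d_co: a local criterion for reflections of vertex- and edge-transitive polytopes

Let `P` be a vertex- and edge-transitive polytope and `vw` an edge of `P`.  Suppose that every
neighbour `u ≠ w` of `v` is adjacent to `w`, or is in a common two-dimensional face with `v` and
`w`, or has its mirror image in the perpendicular bisector of `vw` in `P`.  Then `P` is invariant
under the reflections in the perpendicular bisectors of all its edges.

Idea of the proof.  All vertices are on a sphere and all edges have the same length, and a greedy
argument shows that non-adjacent vertices have a greater distance.  In all three cases the mirror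
image of `u` is a vertex adjacent to `w`.  By the symmetries this holds for all arcs, and the
reflections propagate along the edge graph.
-/

namespace Pool.Agent.Results.MP_03766d_co.LocalMirror

open Pool.Agent.Lib.MP_03766d_co

/-- Local criterion at one edge for the invariance under the reflections in the perpendicular
bisectors of all the edges, and for arc-transitivity. -/
theorem result {d : ℕ} (S : Set (EuclideanSpace ℝ (Fin d))) (hS : S.Finite)
    (hv : VertexTransitive (convexHull ℝ S)) (he : EdgeTransitive (convexHull ℝ S))
    (v w : EuclideanSpace ℝ (Fin d)) (hvw : Edge (convexHull ℝ S) v w)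
    (hn : ∀ u, Edge (convexHull ℝ S) v u → u ≠ w → Edge (convexHull ℝ S) w u ∨
      InTwoFace (convexHull ℝ S) v w u ∨ mirror v w u ∈ convexHull ℝ S) :
    ArcTransitive (convexHull ℝ S) ∧
      ∀ x y, Edge (convexHull ℝ S) x y →
        mirror x y '' convexHull ℝ S = convexHull ℝ S := by
  obtain ⟨V, c, R, L, hP, h⟩ := exists_trans hS hv he hvw
  rw [← hP] at hvw hn ⊢
  have hG := h.good_of_local hvw hn
  exact ⟨h.arc hG, fun x' y' h' => h.mirror_image hG h'⟩

end Pool.Agent.Results.MP_03766d_co.LocalMirror
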