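import Pool.Agent.Lib.MP_03766d_co.Main

/-!
# MP_03766d_co: vertex- and edge-transitive polytopes with an edge in no triangle

If some edge `vw` of a vertex- and edge-transitive polytope `P` is in no triangle of the edge graph
then `P` is invariant under the reflections in the perpendicular bisectors of all its edges; in
particular `P` is arc-transitive.

Idea of the proof.  All vertices are on a sphere and all edges have the same length.  A greedy
argument shows that non-adjacent vertices are at distance at least `√2` times the length of the
edges.  So the edge vectors at a vertex are pairwise non-acute and in an open half-space, hence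
linearly independent, and any two edges at a vertex are in a common two-dimensional face.  Then
the mirror image of a neighbour of `v` in the bisector of `vw` is a vertex, and this propagates
along the edge graph.
-/

namespace Pool.Agent.Results.MP_03766d_co.NoTriangle

open Pool.Agent.Lib.MP_03766d_co

/-- A vertex- and edge-transitive polytope with an edge in no triangle of edges is arc-transitive;
it is invariant under the reflections in the perpendicular bisectors of all its edges. -/
theorem result {d : ℕ} (S : Set (EuclideanSpace ℝ (Fin d))) (hS : S.Finite)
    (hv : VertexTransitive (convexHull ℝ S)) (he : EdgeTransitive (convexHull ℝ S))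
    (v w : EuclideanSpace ℝ (Fin d)) (hvw : Edge (convexHull ℝ S) v w)
    (hn : ∀ u, ¬ (Edge (convexHull ℝ S) v u ∧ Edge (convexHull ℝ S) w u)) :
    ArcTransitive (convexHull ℝ S) ∧
      ∀ x y, Edge (convexHull ℝ S) x y →
        mirror x y '' convexHull ℝ S = convexHull ℝ S := by
  obtain ⟨V, c, R, L, hP, h⟩ := exists_trans hS hv he hvw
  rw [← hP] at hvw hn ⊢
  have hG := h.good_of_triangle hvw hn
  exact ⟨h.arc hG, fun x' y' h' => h.mirror_image hG h'⟩

end Pool.Agent.Results.MP_03766d_co.NoTriangle
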