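import Pool.Agent.Lib.MP_03766d_co.Main

/-!
# MP_03766d_co: vertex- and edge-transitive polytopes with small valency

Let `P` be a vertex- and edge-transitive polytope of dimension `D` whose vertices have `n`
neighbours in the edge graph.  If `3 n < 4 D` then `P` is invariant under the reflections in the
perpendicular bisectors of all its edges; in particular `P` is arc-transitive.  So a vertex- and
edge-transitive polytope that is not arc-transitive satisfies `4 D ≤ 3 n`.

Idea of the proof.  All vertices are on a sphere and all edges have the same length.  A greedy
argument shows that non-adjacent vertices are at distance at least `√2` times the length of the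
edges.  If two edges `vw`, `vu` are in a common two-dimensional face then the mirror image of `u`
in the bisector of `vw` is a vertex of this face.  Hence the number of edges at `v` that are in no
common two-dimensional face with `vw` is the same number `m` for all arcs `(v, w)`.  If `m = 0`
then the reflection in the bisector of `vw` maps the neighbours of `v` to those of `w`, and this
propagates along the edge graph.  If `m > 0` then every pair of edges at `v` without a common
two-dimensional face gives a linear relation of the edge vectors in which exactly these two have
negative coefficients; the averages of these relations form a matrix of trace `-n / 2`, of rank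
at most `n - D` and with columns of `ℓ¹` norm at most `2`, so that `n / 2 ≤ 2 (n - D)`.
-/

namespace Pool.Agent.Results.MP_03766d_co.SmallValency

open Pool.Agent.Lib.MP_03766d_co

/-- A vertex- and edge-transitive polytope with `3 * valency < 4 * dimension` is arc-transitive;
it is invariant under the reflections in the perpendicular bisectors of all its edges. -/
theorem result {d : ℕ} (S : Set (EuclideanSpace ℝ (Fin d))) (hS : S.Finite)
    (hv : VertexTransitive (convexHull ℝ S)) (he : EdgeTransitive (convexHull ℝ S))
    (v : EuclideanSpace ℝ (Fin d)) (hvS : v ∈ (convexHull ℝ S).extremePoints ℝ)
    (hn : 3 * {u | Edge (convexHull ℝ S) v u}.ncard <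
      4 * Module.finrank ℝ (vectorSpan ℝ (convexHull ℝ S))) :
    ArcTransitive (convexHull ℝ S) ∧
      ∀ x y, Edge (convexHull ℝ S) x y →
        mirror x y '' convexHull ℝ S = convexHull ℝ S := by
  by_cases hE : ∃ x y, Edge (convexHull ℝ S) x y
  · obtain ⟨x, y, hxy⟩ := hE
    obtain ⟨V, c, R, L, hP, h⟩ := exists_trans hS hv he hxy
    rw [← hP] at hvS hn hxy ⊢
    rw [ncard_nbr, h.card_eq (h.ext v hvS) (edge_mem_left hxy)] at hn
    have hG := h.good_of_valency hxy hn
    exact ⟨h.arc hG, fun x' y' h' => h.mirror_image hG h'⟩
  · push Not at hE
    exact ⟨fun x y _ _ h => absurd h (hE x y), fun x y h => absurd h (hE x y)⟩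

end Pool.Agent.Results.MP_03766d_co.SmallValency
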